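import Pool.Agent.D0H83.AC.Stm5
import Pool.Agent.D0H82.AC.Cyc

set_option autoImplicit false

/-! Project AC, module E12 CYCU. -/

namespace Pool.Agent.D0H70.AC

open Finset Matrix Pool.Agent.Q181.TG Pool.Agent.D0H83.AC Pool.Agent.D0H82.AC

theorem sum_zmod (N : ℕ) [NeZero N] (V : ZMod N → ℤ) : ∑ a, V a = ∑ k ∈ range N, V (k : ZMod N) := by
  refine sum_bij' (fun a _ => a.val) (fun k _ => (k : ZMod N)) ?_ ?_ ?_ ?_ ?_
  · intro a _
    exact mem_range.2 (ZMod.val_lt a)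
  · intro k _
    exact mem_univ _
  · intro a _
    exact ZMod.natCast_zmod_val a
  · intro k hk
    exact ZMod.val_cast_of_lt (mem_range.1 hk)
  · intro a _
    rw [ZMod.natCast_zmod_val]

/-- a function with sum zero is a difference -/
theorem prim1 (N : ℕ) [NeZero N] (V : ZMod N → ℤ) (hV : ∑ a, V a = 0) :
    ∃ W : ZMod N → ℤ, ∀ a, W (a + 1) - W a = V a := by
  refine ⟨fun a => ∑ k ∈ range a.val, V (k : ZMod N), fun a => ?_⟩
  have h1 := val_add_one_int N a
  simp only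
  by_cases h : a = -1
  · rw [if_pos h] at h1
    have h2 : a + 1 = 0 := by rw [h, neg_add_cancel]
    rw [h2, ZMod.val_zero] at h1 ⊢
    have h3 : a.val + 1 = N := by
      have : (0 : ℤ) = a.val + 1 - N := by exact_mod_cast h1
      omega
    rw [range_zero, sum_empty, zero_sub]
    have h4 : range N = range (a.val + 1) := by rw [h3]
    rw [sum_zmod, h4, sum_range_succ, ZMod.natCast_zmod_val] at hV
    linarith
  · rw [if_neg h, sub_zero] at h1
    have h3 : (a + 1).val = a.val + 1 := by exact_mod_cast h1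
    rw [h3, sum_range_succ, ZMod.natCast_zmod_val]
    ring

theorem prim2 (N : ℕ) [NeZero N] (V : ZMod N → ℤ) (hV : ∑ a, V a = 0)
    (hV2 : ∑ a, ((V a : ℤ) : ZMod N) * a = 0) :
    ∃ U : ZMod N → ℤ, ∀ a, 2 * U a - U (a + 1) - U (a - 1) = V a := by
  obtain ⟨W, hW⟩ := prim1 N V hV
  have h1 : ((∑ a, W a : ℤ) : ZMod N) = 0 := by
    have h2 : ∑ a, ((W (a + 1) : ℤ) : ZMod N) * a = ∑ a, ((W a : ℤ) : ZMod N) * (a - 1) := by
      rw [← Equiv.sum_comp (Equiv.addRight (1 : ZMod N))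
        (fun a : ZMod N => ((W a : ℤ) : ZMod N) * (a - 1))]
      refine sum_congr rfl fun a _ => ?_
      simp
    have h3 : ∑ a, ((V a : ℤ) : ZMod N) * a =
        ∑ a, ((W (a + 1) : ℤ) : ZMod N) * a - ∑ a, ((W a : ℤ) : ZMod N) * a := by
      rw [← sum_sub_distrib]
      refine sum_congr rfl fun a _ => ?_
      rw [← hW a]
      push_cast
      ring
    rw [hV2, h2, ← sum_sub_distrib] at h3
    have h4 : ∑ a : ZMod N, (((W a : ℤ) : ZMod N) * (a - 1) - ((W a : ℤ) : ZMod N) * a) =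
        -∑ a : ZMod N, ((W a : ℤ) : ZMod N) := by
      rw [← sum_neg_distrib]
      refine sum_congr rfl fun a _ => ?_
      ring
    rw [h4] at h3
    push_cast
    exact neg_eq_zero.1 h3.symm
  rw [ZMod.intCast_zmod_eq_zero_iff_dvd] at h1
  obtain ⟨c, hc⟩ := h1
  obtain ⟨U, hU⟩ := prim1 N (fun a => W a - c) (by
    rw [sum_sub_distrib, hc, sum_const, card_univ, ZMod.card, nsmul_eq_mul, sub_self])
  refine ⟨fun a => -U (a + 1), fun a => ?_⟩
  have e1 := hU (a + 1)
  have e2 := hU a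
  have e3 := hW a
  simp only [sub_add_cancel] at e1 e2 ⊢
  linarith

theorem sum_row (N : ℕ) [Fintype (Multiplicative ℤ ⧸ sbg N)] (p : (Multiplicative ℤ ⧸ sbg N) × Fin 1) :
    ∑ q, reg (Multiplicative ℤ ⧸ sbg N) cyc p q = 0 := by
  classical
  have h1 : ∀ q : (Multiplicative ℤ ⧸ sbg N) × Fin 1,
      reg (Multiplicative ℤ ⧸ sbg N) cyc p q =
      (if q.1 = p.1 then 2 else 0) -
        (if q.1 = (Multiplicative.ofAdd (1 : ℤ))⁻¹ • p.1 then 1 else 0) -
        (if q.1 = Multiplicative.ofAdd (1 : ℤ) • p.1 then 1 else 0) := by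
    intro q
    rw [reg_cyc]
    have e1 : (Multiplicative.ofAdd (1 : ℤ) • q.1 = p.1) ↔ (q.1 = (Multiplicative.ofAdd (1 : ℤ))⁻¹ • p.1) :=
      smul_eq_iff_eq_inv_smul _
    have e2 : ((Multiplicative.ofAdd (1 : ℤ))⁻¹ • q.1 = p.1) ↔ (q.1 = Multiplicative.ofAdd (1 : ℤ) • p.1) :=
      inv_smul_eq_iff
    simp only [e1, e2]
    congr
  rw [Finset.sum_congr rfl fun q _ => h1 q]
  rw [Fintype.sum_prod_type]
  simp only [Finset.univ_unique, Finset.sum_singleton, Finset.sum_sub_distrib, Finset.sum_ite_eq', Finset.mem_univ,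
    if_true]
  norm_num

theorem u_reg (N : ℕ) [NeZero N] [Fintype (Multiplicative ℤ ⧸ sbg N)] (U : ZMod N → ℤ)
    (q : (Multiplicative ℤ ⧸ sbg N) × Fin 1) :
    ((fun p : (Multiplicative ℤ ⧸ sbg N) × Fin 1 => U (ee N p.1)) ᵥ*
      reg (Multiplicative ℤ ⧸ sbg N) cyc) q =
      2 * U (ee N q.1) - U (ee N q.1 + 1) - U (ee N q.1 - 1) := by
  classical
  rw [Matrix.vecMul, dotProduct]
  have h1 : ∀ p : (Multiplicative ℤ ⧸ sbg N) × Fin 1,
      U (ee N p.1) * reg (Multiplicative ℤ ⧸ sbg N) cyc p q =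
      (if q.1 = p.1 then 2 * U (ee N p.1) else 0) -
        (if Multiplicative.ofAdd (1 : ℤ) • q.1 = p.1 then U (ee N p.1) else 0) -
        (if (Multiplicative.ofAdd (1 : ℤ))⁻¹ • q.1 = p.1 then U (ee N p.1) else 0) := by
    intro p
    rw [reg_cyc]
    split_ifs <;> ring
  rw [Finset.sum_congr rfl fun q _ => h1 q, Fintype.sum_prod_type]
  simp only [Finset.univ_unique, Finset.sum_singleton, Finset.sum_sub_distrib, Finset.sum_ite_eq, Finset.mem_univ,
    if_true]
  rw [ee_smul, ee_smul, toAdd_inv, toAdd_ofAdd]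
  push_cast
  rw [add_comm (1 : ZMod N), neg_add_eq_sub]

theorem t_cycu : S_cycu := by
  intro N hN _
  have : NeZero N := ⟨by omega⟩
  set L := Submodule.span ℤ (Set.range (reg (Multiplicative ℤ ⧸ sbg N) cyc)) with hL
  have hle : L ≤ LinearMap.ker (phi N) := by
    rw [hL, Submodule.span_le]
    rintro _ ⟨p, rfl⟩
    exact phi_row N p
  let Ψ : ((Multiplicative ℤ ⧸ sbg N) × Fin 1 → ℤ) ⧸ L →ₗ[ℤ] ZMod N := L.liftQ (phi N) hle
  have hsum : ∀ v ∈ L, ∑ p, v p = 0 := by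
    intro v hv
    rw [hL] at hv
    induction hv using Submodule.span_induction with
    | mem x hx =>
      obtain ⟨p, rfl⟩ := hx
      exact sum_row N p
    | zero => simp
    | add x y _ _ hx hy =>
      simp only [Pi.add_apply, sum_add_distrib, hx, hy, add_zero]
    | smul c x _ hx =>
      simp only [Pi.smul_apply, smul_eq_mul, ← mul_sum, hx, mul_zero]
  have key : ∀ z : ((Multiplicative ℤ ⧸ sbg N) × Fin 1 → ℤ) ⧸ L,
      IsOfFinAddOrder z → Ψ z = 0 → z = 0 := by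
    intro z hz hΨ
    obtain ⟨v, rfl⟩ := L.mkQ_surjective z
    rw [isOfFinAddOrder_iff_zsmul_eq_zero] at hz
    obtain ⟨m, hm, hmz⟩ := hz
    rw [← map_smul, Submodule.mkQ_apply, Submodule.Quotient.mk_eq_zero] at hmz
    have h1 := hsum _ hmz
    simp only [Pi.smul_apply, smul_eq_mul, ← mul_sum] at h1
    have h2 : ∑ p, v p = 0 := (mul_eq_zero.1 h1).resolve_left hm
    have h3 : ∑ p, ((v p : ℤ) : ZMod N) * ee N p.1 = 0 := hΨ
    have h4 : ∑ a : ZMod N, v ((ee N).symm a, 0) = 0 := by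
      rw [← h2, Fintype.sum_prod_type]
      simp only [Finset.univ_unique, Finset.sum_singleton]
      exact Equiv.sum_comp (ee N).symm (fun x => v (x, 0))
    have h5 : ∑ a : ZMod N, ((v ((ee N).symm a, 0) : ℤ) : ZMod N) * a = 0 := by
      rw [← h3, Fintype.sum_prod_type]
      simp only [Finset.univ_unique, Finset.sum_singleton]
      rw [← Equiv.sum_comp (ee N).symm]
      refine sum_congr rfl fun a _ => ?_
      rw [Equiv.apply_symm_apply]
      rfl
    obtain ⟨U, hU⟩ := prim2 N _ h4 h5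
    rw [Submodule.mkQ_apply, Submodule.Quotient.mk_eq_zero, hL, ← cok_range]
    refine ⟨fun p => U (ee N p.1), ?_⟩
    ext q
    have h6 := u_reg N U q
    rw [hU, Equiv.symm_apply_apply] at h6
    have h7 : q = (q.1, 0) := by
      ext
      · rfl
      · simp
    rw [h7]
    rw [h7] at h6
    exact h6
  have hinj : Function.Injective (fun x : AddCommGroup.torsion
      (((Multiplicative ℤ ⧸ sbg N) × Fin 1 → ℤ) ⧸ L) => Ψ (x : ((Multiplicative ℤ ⧸ sbg N) × Fin 1 → ℤ) ⧸ L)) := by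
    intro x y hxy
    have h1 : ((x - y : AddCommGroup.torsion (((Multiplicative ℤ ⧸ sbg N) × Fin 1 → ℤ) ⧸ L)) :
        ((Multiplicative ℤ ⧸ sbg N) × Fin 1 → ℤ) ⧸ L) = 0 := by
      refine key _ (x - y).2 ?_
      have h2 : Ψ (x : ((Multiplicative ℤ ⧸ sbg N) × Fin 1 → ℤ) ⧸ L) = Ψ y := hxy
      rw [AddSubgroup.coe_sub, map_sub, h2, sub_self]
    have h2 : x - y = 0 := Subtype.ext h1
    exact sub_eq_zero.1 h2
  have h1 := Nat.card_le_card_of_injective _ hinj
  rw [Nat.card_zmod] at h1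
  exact h1

end Pool.Agent.D0H70.AC
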