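import Pool.Agent.D0H83.AC.Stm3

set_option autoImplicit false

/-! Project AC, module E3 DIAG. -/

namespace Pool.Agent.D0H70.AC

open Finset Matrix Pool.Agent.D0H83.AC

theorem eig_le {N : Type} [Fintype N] [DecidableEq N] (M : Matrix N N ℝ) (K : ℝ)
    (hK : ∀ f : N → ℝ, ∑ q, (f ᵥ* M) q ^ 2 ≤ K * ∑ q, f q ^ 2) (hA : (M * Mᵀ).IsHermitian) (j : N) :
    hA.eigenvalues j ≤ K := by
  set v : N → ℝ := ⇑(hA.eigenvectorBasis j) with hv
  have h1 : (M * Mᵀ) *ᵥ v = hA.eigenvalues j • v := hA.mulVec_eigenvectorBasis j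
  have h2 : ∑ q, v q ^ 2 = 1 := by
    have h3 : ‖hA.eigenvectorBasis j‖ = 1 := hA.eigenvectorBasis.orthonormal.1 j
    rw [EuclideanSpace.norm_eq, Real.sqrt_eq_one] at h3
    simpa [hv, sq_abs] using h3
  have h4 : ∑ q, (v ᵥ* M) q ^ 2 = hA.eigenvalues j := by
    have h5 : ∑ q, (v ᵥ* M) q ^ 2 = (v ᵥ* M) ⬝ᵥ (v ᵥ* M) := by
      simp only [dotProduct, pow_two]
    have h6 : (v ᵥ* M) ⬝ᵥ (v ᵥ* M) = v ⬝ᵥ ((M * Mᵀ) *ᵥ v) := by
      rw [← Matrix.mulVec_mulVec, Matrix.mulVec_transpose, Matrix.dotProduct_mulVec]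
    rw [h5, h6, h1, dotProduct_smul, smul_eq_mul]
    have h7 : v ⬝ᵥ v = 1 := by
      rw [← h2]
      simp only [dotProduct, pow_two]
    rw [h7, mul_one]
  have h8 := hK v
  rw [h4, h2, mul_one] at h8
  exact h8

theorem t_diag : S_diag := by
  intro N _ _ M K hK q b hb e
  have hP : (M * Mᵀ).PosSemidef := by
    have := Matrix.posSemidef_self_mul_conjTranspose M
    rwa [Matrix.conjTranspose_eq_transpose_of_trivial] at this
  have hA : (M * Mᵀ).IsHermitian := hP.isHermitian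
  have h1 : Polynomial.aeval (M * Mᵀ) q = hA.cfc q.eval := by
    rw [← hA.cfc_eq]
    exact (cfc_polynomial q (M * Mᵀ) hA).symm
  have h2 : (Polynomial.aeval (M * Mᵀ) q) e e =
      ∑ j, q.eval (hA.eigenvalues j) * ((hA.eigenvectorUnitary : Matrix N N ℝ) e j) ^ 2 := by
    rw [h1, Matrix.IsHermitian.cfc, Unitary.conjStarAlgAut_apply, Matrix.mul_apply]
    refine sum_congr rfl fun j _ => ?_
    rw [Matrix.mul_diagonal, Matrix.star_apply]
    simp only [Function.comp_apply, RCLike.ofReal_real_eq_id, id_eq, star_trivial]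
    ring
  have h3 : ∑ j, ((hA.eigenvectorUnitary : Matrix N N ℝ) e j) ^ 2 = 1 := by
    have h4 : (hA.eigenvectorUnitary : Matrix N N ℝ) * star (hA.eigenvectorUnitary : Matrix N N ℝ) = 1 :=
      Unitary.coe_mul_star_self _
    have h5 := congrFun (congrFun h4 e) e
    rw [Matrix.mul_apply, Matrix.one_apply_eq] at h5
    rw [← h5]
    refine sum_congr rfl fun j _ => ?_
    rw [Matrix.star_apply, star_trivial, pow_two]
  rw [h2]
  calc |∑ j, q.eval (hA.eigenvalues j) * ((hA.eigenvectorUnitary : Matrix N N ℝ) e j) ^ 2|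
      ≤ ∑ j, |q.eval (hA.eigenvalues j) * ((hA.eigenvectorUnitary : Matrix N N ℝ) e j) ^ 2| :=
        abs_sum_le_sum_abs _ _
    _ ≤ ∑ j, b * ((hA.eigenvectorUnitary : Matrix N N ℝ) e j) ^ 2 := by
        refine sum_le_sum fun j _ => ?_
        rw [abs_mul, abs_of_nonneg (sq_nonneg ((hA.eigenvectorUnitary : Matrix N N ℝ) e j))]
        refine mul_le_mul_of_nonneg_right ?_ (sq_nonneg _)
        exact hb _ (hP.eigenvalues_nonneg j) (eig_le M K hK hA j)
    _ = b := by rw [← mul_sum, h3, mul_one]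

end Pool.Agent.D0H70.AC
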