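import Pool.Agent.D0H83.AC.Stm3
import Pool.Agent.D0H25.AC.Far

set_option autoImplicit false

/-! Project AC, module E5 ORBS. -/

namespace Pool.Agent.D0H70.AC

open Finset Pool.Agent.D0H83.AC Pool.Agent.D0H25.AC

theorem ball_zero {G : Type} [Group G] (S : Set G) : (1 : G) ∈ ball S 0 :=
  ⟨[], le_rfl, by simp, by simp⟩

theorem ball_mono {G : Type} [Group G] (S : Set G) {m n : ℕ} (h : m ≤ n) : ball S m ⊆ ball S n := by
  rintro g ⟨l, h1, h2, h3⟩
  exact ⟨l, h1.trans h, h2, h3⟩

theorem ball_mul {G : Type} [Group G] (S : Set G) {m n : ℕ} {g h : G} (hg : g ∈ ball S m)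
    (hh : h ∈ ball S n) : g * h ∈ ball S (m + n) := by
  obtain ⟨l, h1, h2, h3⟩ := hg
  obtain ⟨l', h1', h2', h3'⟩ := hh
  refine ⟨l ++ l', ?_, ?_, ?_⟩
  · rw [List.length_append]
    omega
  · intro s hs
    rcases List.mem_append.1 hs with h | h
    · exact h2 s h
    · exact h2' s h
  · rw [List.prod_append, h3, h3']

theorem ball_inv {G : Type} [Group G] (S : Set G) {m : ℕ} {g : G} (hg : g ∈ ball S m) :
    g⁻¹ ∈ ball S m := by
  obtain ⟨l, h1, h2, h3⟩ := hg
  refine ⟨(l.map fun x => x⁻¹).reverse, ?_, ?_, ?_⟩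
  · rw [List.length_reverse, List.length_map]
    exact h1
  · intro s hs
    rw [List.mem_reverse, List.mem_map] at hs
    obtain ⟨t, ht, rfl⟩ := hs
    rcases h2 t ht with h | h
    · right
      rwa [inv_inv]
    · left
      exact h
  · rw [← List.prod_inv_reverse, h3]

theorem ball_succ {G : Type} [Group G] (S : Set G) (n : ℕ) {g : G} (hg : g ∈ ball S (n + 1)) :
    g = 1 ∨ ∃ s h : G, (s ∈ S ∨ s⁻¹ ∈ S) ∧ h ∈ ball S n ∧ g = s * h := by
  obtain ⟨l, h1, h2, h3⟩ := hg
  rcases l with _ | ⟨a, l⟩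
  · left
    rw [← h3, List.prod_nil]
  · right
    refine ⟨a, l.prod, h2 a (by simp), ⟨l, ?_, fun s hs => h2 s (by simp [hs]), rfl⟩, ?_⟩
    · simp only [List.length_cons] at h1
      omega
    · rw [← h3, List.prod_cons]

theorem ball_finite {G : Type} [Group G] (T : Finset G) (n : ℕ) : (ball (T : Set G) n).Finite := by
  induction n with
  | zero =>
    refine Set.Finite.subset (Set.finite_singleton (1 : G)) ?_
    rintro g ⟨l, h1, h2, h3⟩
    have : l = [] := List.length_eq_zero_iff.1 (by omega)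
    rw [this, List.prod_nil] at h3
    rw [Set.mem_singleton_iff, h3]
  | succ n ih =>
    have hT : ({s : G | s ∈ (T : Set G) ∨ s⁻¹ ∈ (T : Set G)}).Finite := by
      have h1 : {s : G | s ∈ (T : Set G) ∨ s⁻¹ ∈ (T : Set G)} ⊆
          (T : Set G) ∪ (fun x => x⁻¹) '' (T : Set G) := by
        rintro s (hs | hs)
        · left
          exact hs
        · right
          exact ⟨s⁻¹, hs, inv_inv s⟩
      exact Set.Finite.subset (T.finite_toSet.union (T.finite_toSet.image _)) h1
    refine Set.Finite.subset ((Set.finite_singleton (1 : G)).union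
      (Set.Finite.image2 (fun a b => a * b) hT ih)) ?_
    intro g hg
    rcases ball_succ _ n hg with h | ⟨s, h, hs, hh, rfl⟩
    · left
      exact h
    · right
      exact ⟨s, hs, h, hh, rfl⟩

theorem mem_closure_iff_ball {G : Type} [Group G] (S : Set G) (g : G)
    (hg : g ∈ Subgroup.closure S) : ∃ n, g ∈ ball S n := by
  rw [← Subgroup.mem_toSubmonoid, Subgroup.closure_toSubmonoid] at hg
  obtain ⟨l, h1, h2⟩ := Submonoid.exists_list_of_mem_closure hg
  exact ⟨l.length, l, le_rfl, fun s hs => h1 s hs, h2⟩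

theorem ball_sub_closure {G : Type} [Group G] (S : Set G) (n : ℕ) {g : G} (hg : g ∈ ball S n) :
    g ∈ Subgroup.closure S := by
  obtain ⟨l, h1, h2, rfl⟩ := hg
  refine Subgroup.list_prod_mem _ fun x hx => ?_
  rcases h2 x hx with h | h
  · exact Subgroup.subset_closure h
  · exact (Subgroup.inv_mem_iff _).1 (Subgroup.subset_closure h)

theorem ball_stab {G : Type} [Group G] (S : Set G) (n : ℕ) (h : ball S (n + 1) ⊆ ball S n) (m : ℕ) :
    ball S m ⊆ ball S n := by
  induction m with
  | zero => exact ball_mono S (Nat.zero_le n)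
  | succ m ih =>
    intro g hg
    rcases ball_succ S m hg with h1 | ⟨s, k, hs, hk, rfl⟩
    · rw [h1]
      exact ball_mono S (Nat.zero_le n) (ball_zero S)
    · apply h
      have h2 : s ∈ ball S 1 := ⟨[s], by simp, by simpa using hs, by simp⟩
      have h3 := ball_mul S h2 (ih hk)
      rwa [add_comm] at h3

theorem ncard_ball {G : Type} [Group G] (T : Finset G) (Λ : Subgroup G) [Infinite Λ]
    (hΛ : Subgroup.closure (T : Set G) = Λ) (n : ℕ) : n + 1 ≤ (ball (T : Set G) n).ncard := by
  induction n with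
  | zero =>
    rw [Nat.zero_add, Nat.one_le_iff_ne_zero, Ne, Set.ncard_eq_zero (ball_finite T 0)]
    exact Set.Nonempty.ne_empty ⟨1, ball_zero _⟩
  | succ n ih =>
    have h1 : ball (T : Set G) n ⊂ ball (T : Set G) (n + 1) := by
      refine ⟨ball_mono _ (Nat.le_succ n), fun h => ?_⟩
      have h2 : (Λ : Set G) ⊆ ball (T : Set G) n := by
        intro g hg
        obtain ⟨m, hm⟩ := mem_closure_iff_ball (T : Set G) g (by rw [hΛ]; exact hg)
        exact ball_stab _ n h m hm
      have h3 : (Λ : Set G).Finite := (ball_finite T n).subset h2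
      exact Set.infinite_coe_iff.1 (inferInstance : Infinite Λ) h3
    have h4 := Set.ncard_lt_ncard h1 (ball_finite T (n + 1))
    omega

theorem exists_inj {G : Type} [Group G] (T : Finset G) (Λ : Subgroup G) [Infinite Λ]
    (hΛ : Subgroup.closure (T : Set G) = Λ) (L : ℕ) :
    ∃ f : Fin (L + 1) → Λ, Function.Injective f ∧ ∀ i, (f i : G) ∈ ball (T : Set G) L := by
  have h1 := ncard_ball T Λ hΛ L
  have hF := ball_finite T L
  have : Fintype (ball (T : Set G) L) := hF.fintype
  have h2 : L + 1 ≤ Fintype.card (ball (T : Set G) L) := by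
    rwa [← Nat.card_eq_fintype_card, Nat.card_coe_set_eq]
  obtain ⟨e⟩ := Function.Embedding.nonempty_of_card_le
    (α := Fin (L + 1)) (β := ball (T : Set G) L) (by rwa [Fintype.card_fin])
  refine ⟨fun i => ⟨(e i : G), ?_⟩, ?_, ?_⟩
  · rw [← hΛ]
    exact ball_sub_closure _ L (e i).2
  · intro i j hij
    exact e.injective (Subtype.ext (congrArg (fun x : Λ => (x : G)) hij))
  · intro i
    exact (e i).2

open Classical in
theorem bad_fixd {G : Type} [Group G] (T : Finset G) (Λ : Subgroup G) [Infinite Λ]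
    (hΛ : Subgroup.closure (T : Set G) = Λ) (L : ℕ) (X : Type) [Fintype X] [MulAction G X] :
    bad Λ X L ⊆ fixd (T : Set G) (2 * L) X := by
  obtain ⟨f, hf, hf'⟩ := exists_inj T Λ hΛ L
  intro x hx
  rw [bad, mem_filter] at hx
  have h1 : #{y : X | ob Λ X y = ob Λ X x} < #(univ : Finset (Fin (L + 1))) := by
    rw [card_univ, Fintype.card_fin]
    exact Nat.lt_succ_of_le hx.2
  obtain ⟨i, -, j, -, hij, he⟩ := exists_ne_map_eq_of_card_lt_of_maps_to h1
    (f := fun i => f i • x) (fun i _ => by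
      simp only [coe_filter, mem_univ, true_and, Set.mem_ofPred_eq]
      exact ob_eq Λ X (f i) x)
  rw [fixd, mem_filter]
  refine ⟨mem_univ _, ((f j : G)⁻¹ * (f i : G)), ?_, ?_, ?_⟩
  · rw [two_mul]
    exact ball_mul _ (ball_inv _ (hf' j)) (hf' i)
  · intro h
    exact hij (hf (Subtype.ext (inv_mul_eq_one.1 h)).symm)
  · have he' : (f i : G) • x = (f j : G) • x := he
    rw [mul_smul, he', inv_smul_smul]

open Classical in
theorem card_bad {G : Type} [Group G] (Λ : Subgroup G) (X : Type) [Fintype X] [MulAction G X]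
    [Fintype (MulAction.orbitRel.Quotient Λ X)] (L : ℕ) :
    (#(bad Λ X L) : ℝ) = ∑ b : MulAction.orbitRel.Quotient Λ X,
      (if #{x : X | ob Λ X x = b} ≤ L then (#{x : X | ob Λ X x = b} : ℝ) else 0) := by
  have := card_eq_sum_card_fiberwise (s := bad Λ X L)
    (t := (univ : Finset (MulAction.orbitRel.Quotient Λ X))) (f := ob Λ X)
    (fun x _ => mem_coe.2 (mem_univ _))
  rw [this, Nat.cast_sum]
  refine sum_congr rfl fun b _ => ?_
  split_ifs with hb
  · congr 2
    ext x
    rw [bad, filter_filter, mem_filter, mem_filter]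
    refine ⟨fun h => ⟨h.1, h.2.2⟩, fun h => ⟨h.1, ?_, h.2⟩⟩
    rw [h.2]
    exact hb
  · rw [Nat.cast_eq_zero, card_eq_zero, filter_eq_empty_iff]
    intro x hx hxb
    rw [bad, mem_filter, hxb] at hx
    exact hb hx.2

open Classical in
theorem t_orbs : S_orbs := by
  intro G _ T Λ _ hΛ X _ _ _ L hL
  have hbf : (#(bad Λ X L) : ℝ) ≤ #(fixd (T : Set G) (2 * L) X) := by
    exact_mod_cast card_le_card (bad_fixd T Λ hΛ L X)
  refine ⟨?_, ?_⟩
  · have h1 := card_orbits_le Λ X L (by omega)
    linarith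
  · have h0 : (Fintype.card X : ℝ) = ∑ b : MulAction.orbitRel.Quotient Λ X,
        (#{x : X | ob Λ X x = b} : ℝ) := by
      have := card_eq_sum_card_fiberwise (s := (univ : Finset X))
        (t := (univ : Finset (MulAction.orbitRel.Quotient Λ X))) (f := ob Λ X)
        (fun x _ => mem_coe.2 (mem_univ _))
      rw [card_univ] at this
      exact_mod_cast this
    have hL3 : (3 : ℝ) ≤ L := by exact_mod_cast hL
    have hq0 : 0 ≤ Real.log L / L := div_nonneg (Real.log_natCast_nonneg _) (Nat.cast_nonneg _)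
    have h2 : ∀ b : MulAction.orbitRel.Quotient Λ X,
        Real.log (#{x : X | ob Λ X x = b}) ≤
          (#{x : X | ob Λ X x = b} : ℝ) * (Real.log L / L) +
          (if #{x : X | ob Λ X x = b} ≤ L then (#{x : X | ob Λ X x = b} : ℝ) else 0) := by
      intro b
      set s : ℕ := #{x : X | ob Λ X x = b} with hs
      split_ifs with hb
      · have h3 : Real.log (s : ℝ) ≤ s := Real.log_le_self (Nat.cast_nonneg _)
        have h4 : 0 ≤ (s : ℝ) * (Real.log L / L) := mul_nonneg (Nat.cast_nonneg _) hq0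
        linarith
      · have h5 : (L : ℝ) ≤ s := by exact_mod_cast (not_le.1 hb).le
        have he : Real.exp 1 ≤ (L : ℝ) := by linarith [Real.exp_one_lt_three]
        have h6 := Real.log_div_self_antitoneOn (Set.mem_ofPred_eq ▸ he)
          (Set.mem_ofPred_eq ▸ he.trans h5) h5
        have hs0 : (0 : ℝ) < s := by linarith
        rw [add_zero]
        rw [div_le_iff₀ hs0] at h6
        linarith
    calc ∑ b : MulAction.orbitRel.Quotient Λ X, Real.log (#{x | ob Λ X x = b})
        ≤ ∑ b : MulAction.orbitRel.Quotient Λ X,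
          ((#{x : X | ob Λ X x = b} : ℝ) * (Real.log L / L) +
          (if #{x : X | ob Λ X x = b} ≤ L then (#{x : X | ob Λ X x = b} : ℝ) else 0)) :=
          sum_le_sum fun b _ => h2 b
      _ = (Fintype.card X : ℝ) * (Real.log L / L) + #(bad Λ X L) := by
          rw [sum_add_distrib, ← sum_mul, ← h0, card_bad]
      _ ≤ _ := by linarith

end Pool.Agent.D0H70.AC
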