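import Pool.Agent.D0H83.AC.Stm3

set_option autoImplicit false

/-! Project AC, module E2 SUM. -/

namespace Pool.Agent.D0H70.AC

open Finset Pool.Agent.D0H83.AC

/-- the auxiliary bounded increasing function -/
noncomputable def phi (y : ℝ) : ℝ := y / (1 + y)

theorem phi_sub {y : ℝ} (hy : 0 < y) : phi (2 * y) - phi y = y / ((1 + 2 * y) * (1 + y)) := by
  unfold phi
  have h1 : 1 + 2 * y ≠ 0 := by positivity
  have h2 : 1 + y ≠ 0 := by positivity
  field_simp
  ring

theorem step_le {p : ℕ} (hp : 2 ≤ p) {y : ℝ} (hy : 0 < y) :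
    Real.log (1 + (2 * y) ^ p) - Real.log (1 + y ^ p) ≤
      y * (6 * 2 ^ p * (phi (2 * y) - phi y)) := by
  rw [phi_sub hy]
  have h2p : (0 : ℝ) < 2 ^ p := by positivity
  have hyp : 0 < y ^ p := by positivity
  have hlog0 : 0 ≤ Real.log (1 + y ^ p) := Real.log_nonneg (by linarith)
  have hden : 0 < (1 + 2 * y) * (1 + y) := by positivity
  rcases le_total y 1 with h1 | h1
  · have h3 : Real.log (1 + (2 * y) ^ p) ≤ (2 * y) ^ p := by
      have := Real.log_le_sub_one_of_pos (show 0 < 1 + (2 * y) ^ p by positivity)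
      linarith
    have h4 : (2 * y) ^ p ≤ 2 ^ p * y ^ 2 := by
      rw [mul_pow]
      exact mul_le_mul_of_nonneg_left (pow_le_pow_of_le_one hy.le h1 hp) h2p.le
    have h5 : (2 : ℝ) ^ p * y ^ 2 ≤ y * (6 * 2 ^ p * (y / ((1 + 2 * y) * (1 + y)))) := by
      have h6 : y * (6 * 2 ^ p * (y / ((1 + 2 * y) * (1 + y)))) =
          (2 ^ p * y ^ 2) * (6 / ((1 + 2 * y) * (1 + y))) := by
        field_simp
      rw [h6]
      refine le_mul_of_one_le_right (by positivity) ?_
      rw [one_le_div hden]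
      nlinarith
    linarith
  · have h3 : Real.log (1 + (2 * y) ^ p) - Real.log (1 + y ^ p) ≤ p * Real.log 2 := by
      have h4 : 1 + (2 * y) ^ p ≤ 2 ^ p * (1 + y ^ p) := by
        rw [mul_pow, mul_add, mul_one]
        have : (1 : ℝ) ≤ 2 ^ p := one_le_pow₀ (by norm_num)
        linarith
      have h5 := Real.log_le_log (by positivity) h4
      rw [Real.log_mul (by positivity) (by positivity), Real.log_pow] at h5
      linarith
    have h6 : (p : ℝ) * Real.log 2 ≤ 2 ^ p := by
      have h7 : (p : ℝ) * Real.log 2 ≤ p * 1 :=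
        mul_le_mul_of_nonneg_left (by linarith [Real.log_two_lt_d9]) (Nat.cast_nonneg _)
      have h8 : (p : ℝ) ≤ 2 ^ p := by exact_mod_cast Nat.lt_two_pow_self.le
      linarith
    have h9 : y * (6 * 2 ^ p * (y / ((1 + 2 * y) * (1 + y)))) =
        2 ^ p * (6 * y ^ 2 / ((1 + 2 * y) * (1 + y))) := by
      field_simp
    rw [h9]
    have h10 : (1 : ℝ) ≤ 6 * y ^ 2 / ((1 + 2 * y) * (1 + y)) := by
      rw [one_le_div hden]
      nlinarith
    have := le_mul_of_one_le_right h2p.le h10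
    linarith

theorem sum_phi_le (b : ℝ) (hb : 0 < b) (M : ℕ) :
    ∑ j ∈ range M, (phi (2 * (b * 2 ^ j)) - phi (b * 2 ^ j)) ≤ 1 := by
  have h1 : ∀ j : ℕ, phi (2 * (b * 2 ^ j)) - phi (b * 2 ^ j) =
      (fun j : ℕ => phi (b * 2 ^ j)) (j + 1) - (fun j : ℕ => phi (b * 2 ^ j)) j := by
    intro j
    simp only [pow_succ]
    congr 2
    ring
  rw [sum_congr rfl fun j _ => h1 j, sum_range_sub (fun j : ℕ => phi (b * 2 ^ j))]
  have h2 : phi (b * 2 ^ M) ≤ 1 := by
    unfold phi
    rw [div_le_one (by positivity)]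
    linarith
  have h3 : 0 ≤ phi (b * 2 ^ 0) := by
    unfold phi
    positivity
  linarith

theorem t_sum : S_sum := by
  classical
  intro p r c C hp hc hC
  have hp0 : p ≠ 0 := by omega
  have hp0' : (p : ℝ) ≠ 0 := by exact_mod_cast hp0
  refine ⟨r / c + C * (6 * 2 ^ p) * (1 / c) ^ (1 / (p : ℝ)), by positivity, ?_⟩
  intro n d ν hd hν
  have hpos : ∀ k, 0 < ν k := by
    intro k
    by_contra hk
    push Not at hk
    obtain ⟨L, hL⟩ := exists_nat_gt (C * n)
    have h1 := hν (L + 1) (by omega) {k} (by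
      intro k' hk'
      rw [Finset.mem_singleton] at hk'
      rw [hk']
      have : ν k * ((L + 1 : ℕ) : ℝ) ^ p ≤ 0 := mul_nonpos_of_nonpos_of_nonneg hk (by positivity)
      linarith)
    rw [Finset.card_singleton] at h1
    push_cast at h1
    linarith
  refine ⟨hpos, ?_⟩
  intro δ hδ hδ1
  obtain ⟨M, hM⟩ := pow_unbounded_of_one_lt (C * n) (one_lt_two : (1 : ℝ) < 2)
  have hbig : ∀ k, c ≤ ν k * ((2 : ℝ) ^ M) ^ p := by
    intro k
    by_contra hk
    push Not at hk
    have h1 := hν (2 ^ M) Nat.one_le_two_pow {k} (by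
      intro k' hk'
      rw [Finset.mem_singleton] at hk'
      rw [hk']
      push_cast
      exact hk)
    rw [Finset.card_singleton] at h1
    push_cast at h1
    linarith
  have hex : ∀ k, ∃ m : ℕ, c ≤ ν k * ((2 : ℝ) ^ m) ^ p := fun k => ⟨M, hbig k⟩
  set b : ℝ := (δ / c) ^ (1 / (p : ℝ)) with hb
  have hbp : b ^ p = δ / c := by
    rw [hb, ← Real.rpow_natCast, ← Real.rpow_mul (by positivity), one_div, inv_mul_cancel₀ hp0',
      Real.rpow_one]
  have hb0 : 0 < b := by positivity
  let G : ℕ → ℝ := fun j => Real.log (1 + (b * 2 ^ (j + 1)) ^ p) - Real.log (1 + (b * 2 ^ j) ^ p)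
  have hG0 : ∀ j, 0 ≤ G j := by
    intro j
    have h1 : (b * 2 ^ j) ^ p ≤ (b * 2 ^ (j + 1)) ^ p := by
      refine pow_le_pow_left₀ (by positivity) ?_ _
      refine mul_le_mul_of_nonneg_left ?_ hb0.le
      exact pow_le_pow_right₀ (by norm_num) (by omega)
    have h2 := Real.log_le_log (show 0 < 1 + (b * 2 ^ j) ^ p by positivity)
      (show 1 + (b * 2 ^ j) ^ p ≤ 1 + (b * 2 ^ (j + 1)) ^ p by linarith)
    simp only [G]
    linarith
  have hG : ∀ j, G j ≤ b * 2 ^ j * (6 * 2 ^ p * (phi (2 * (b * 2 ^ j)) - phi (b * 2 ^ j))) := by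
    intro j
    have h1 := step_le hp (show 0 < b * 2 ^ j by positivity)
    have h2 : b * 2 ^ (j + 1) = 2 * (b * 2 ^ j) := by ring
    simp only [G]
    rw [h2]
    exact h1
  have hk : ∀ k, Real.log (1 + δ / ν k) ≤ Real.log (1 + b ^ p) +
      ∑ j ∈ (range M).filter (fun j => ν k * ((2 : ℝ) ^ j) ^ p < c), G j := by
    intro k
    have hm := Nat.find_spec (hex k)
    set m := Nat.find (hex k) with hmdef
    have hmM : m ≤ M := Nat.find_min' _ (hbig k)
    have h1 : δ / ν k ≤ (b * 2 ^ m) ^ p := by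
      rw [mul_pow, hbp, div_le_iff₀ (hpos k)]
      have h2 : δ / c * (2 ^ m) ^ p * ν k = δ * ((ν k * (2 ^ m) ^ p) / c) := by
        ring
      rw [h2]
      refine le_mul_of_one_le_right hδ.le ?_
      rw [one_le_div hc]
      exact hm
    have h3 : Real.log (1 + δ / ν k) ≤ Real.log (1 + (b * 2 ^ m) ^ p) := by
      have := hpos k
      refine Real.log_le_log (by positivity) (by linarith)
    have h4 : ∑ j ∈ range m, G j = Real.log (1 + (b * 2 ^ m) ^ p) - Real.log (1 + b ^ p) := by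
      have := sum_range_sub (fun j : ℕ => Real.log (1 + (b * 2 ^ j) ^ p)) m
      simp only [pow_zero, mul_one] at this
      exact this
    have h5 : ∑ j ∈ range m, G j ≤
        ∑ j ∈ (range M).filter (fun j => ν k * ((2 : ℝ) ^ j) ^ p < c), G j := by
      refine sum_le_sum_of_subset_of_nonneg ?_ (fun j _ _ => hG0 j)
      intro j hj
      rw [mem_range] at hj
      refine mem_filter.mpr ⟨mem_range.mpr (by omega), ?_⟩
      exact not_le.1 (Nat.find_min (hex k) hj)
    linarith
  have hT : ∀ j, (#((univ : Finset (Fin d)).filter (fun k => ν k * ((2 : ℝ) ^ j) ^ p < c)) : ℝ) *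
      2 ^ j ≤ C * n := by
    intro j
    have h1 := hν (2 ^ j) Nat.one_le_two_pow
      ((univ : Finset (Fin d)).filter (fun k => ν k * ((2 : ℝ) ^ j) ^ p < c)) (by
        intro k hk
        push_cast
        exact (mem_filter.mp hk).2)
    push_cast at h1
    exact h1
  have hswap : ∑ k : Fin d, ∑ j ∈ (range M).filter (fun j => ν k * ((2 : ℝ) ^ j) ^ p < c), G j =
      ∑ j ∈ range M, (#((univ : Finset (Fin d)).filter
        (fun k => ν k * ((2 : ℝ) ^ j) ^ p < c)) : ℝ) * G j := by
    simp only [sum_filter]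
    rw [sum_comm]
    refine sum_congr rfl fun j _ => ?_
    rw [← sum_filter, sum_const, nsmul_eq_mul]
  have hlogb : Real.log (1 + b ^ p) ≤ δ / c := by
    have := Real.log_le_sub_one_of_pos (show 0 < 1 + b ^ p by positivity)
    rw [hbp] at this ⊢
    linarith
  have hδp : δ ≤ δ ^ (1 / (p : ℝ)) := by
    have h1 := Real.rpow_le_rpow_of_exponent_ge hδ hδ1 (show 1 / (p : ℝ) ≤ 1 by
      rw [div_le_one (by positivity)]
      exact_mod_cast (by omega : 1 ≤ p))
    rwa [Real.rpow_one] at h1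
  have hbd : b = δ ^ (1 / (p : ℝ)) * (1 / c) ^ (1 / (p : ℝ)) := by
    rw [hb, ← Real.mul_rpow hδ.le (by positivity)]
    congr 1
    ring
  have hdr : (d : ℝ) ≤ r * n := by exact_mod_cast hd
  calc ∑ k, Real.log (1 + δ / ν k)
      ≤ ∑ k : Fin d, (Real.log (1 + b ^ p) +
        ∑ j ∈ (range M).filter (fun j => ν k * ((2 : ℝ) ^ j) ^ p < c), G j) :=
        sum_le_sum fun k _ => hk k
    _ = d * Real.log (1 + b ^ p) + ∑ j ∈ range M, (#((univ : Finset (Fin d)).filter
        (fun k => ν k * ((2 : ℝ) ^ j) ^ p < c)) : ℝ) * G j := by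
        rw [sum_add_distrib, hswap, sum_const, card_univ, Fintype.card_fin, nsmul_eq_mul]
    _ ≤ r * n * (δ / c) + ∑ j ∈ range M, C * n * (b * (6 * 2 ^ p)) *
        (phi (2 * (b * 2 ^ j)) - phi (b * 2 ^ j)) := by
        refine add_le_add ?_ (sum_le_sum fun j _ => ?_)
        · exact mul_le_mul hdr hlogb (Real.log_nonneg (by
            have : 0 ≤ b ^ p := by positivity
            linarith)) (by positivity)
        · have h1 : (0 : ℝ) ≤ #((univ : Finset (Fin d)).filter
              (fun k => ν k * ((2 : ℝ) ^ j) ^ p < c)) := Nat.cast_nonneg _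
          have h2 : 0 ≤ phi (2 * (b * 2 ^ j)) - phi (b * 2 ^ j) := by
            rw [phi_sub (by positivity)]
            positivity
          have h3 := mul_le_mul_of_nonneg_left (hG j) h1
          have h4 := mul_le_mul_of_nonneg_right (hT j)
            (show 0 ≤ b * (6 * 2 ^ p) * (phi (2 * (b * 2 ^ j)) - phi (b * 2 ^ j)) by positivity)
          refine h3.trans (le_trans (le_of_eq ?_) (h4.trans (le_of_eq ?_))) <;> ring
    _ ≤ r * n * (δ / c) + C * n * (b * (6 * 2 ^ p)) * 1 := by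
        rw [← mul_sum]
        refine add_le_add le_rfl (mul_le_mul_of_nonneg_left (sum_phi_le b hb0 M) (by positivity))
    _ ≤ (r / c + C * (6 * 2 ^ p) * (1 / c) ^ (1 / (p : ℝ))) * n * δ ^ (1 / (p : ℝ)) := by
        have h1 : r * n * (δ / c) ≤ r / c * n * δ ^ (1 / (p : ℝ)) := by
          have := mul_le_mul_of_nonneg_left hδp (show (0 : ℝ) ≤ r / c * n by positivity)
          refine le_trans (le_of_eq ?_) this
          ring
        have h2 : C * n * (b * (6 * 2 ^ p)) * 1 =
            C * (6 * 2 ^ p) * (1 / c) ^ (1 / (p : ℝ)) * n * δ ^ (1 / (p : ℝ)) := by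
          rw [hbd]
          ring
        rw [h2]
        linarith

end Pool.Agent.D0H70.AC
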