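import Mathlib

/-! Project AC, modules TOUR and ORB: the proofs (over Mathlib only). -/

set_option autoImplicit false

namespace Pool.Agent.D0H70.AC

open Finset

theorem tour_aux (n : ℕ) : ∀ (V : Type) [Fintype V] (Γ : SimpleGraph V), Γ.Connected →
    Fintype.card V = n + 1 → ∃ w : ℕ → V, (∀ v, ∃ i ≤ 2 * n, w i = v) ∧
      (∀ i < 2 * n, Γ.Adj (w i) (w (i + 1))) ∧
      (∀ i < 2 * n, ∀ j < 2 * n, w i = w j → w (i + 1) = w (j + 1) → i = j) := by
  classical
  induction n with
  | zero =>
    intro V _ Γ hΓ hc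
    obtain ⟨x, hx⟩ := Fintype.card_eq_one_iff.1 hc
    refine ⟨fun _ => x, fun v => ⟨0, le_rfl, (hx v).symm⟩, fun i hi => by omega,
      fun i hi => by omega⟩
  | succ n ih =>
    intro V _ Γ hΓ hc
    have : Nontrivial V := Fintype.one_lt_card_iff_nontrivial.1 (by omega)
    obtain ⟨v, hv⟩ := hΓ.exists_connected_induce_compl_singleton_of_finite_nontrivial
    have hc' : Fintype.card (({v}ᶜ : Set V) : Type) = n + 1 := by
      have h1 : Fintype.card (({v}ᶜ : Set V) : Type) = Fintype.card {x : V // x ≠ v} :=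
        Fintype.card_congr (Equiv.subtypeEquivRight (fun x => by simp))
      rw [h1, Fintype.card_subtype_compl, Fintype.card_subtype_eq, hc]
      omega
    obtain ⟨w, h1, h2, h3⟩ := ih (({v}ᶜ : Set V) : Type) (Γ.induce {v}ᶜ) hv hc'
    -- a neighbour of `v`
    obtain ⟨u, hu⟩ : ∃ u, Γ.Adj v u := hΓ.preconnected.exists_adj_of_nontrivial v
    have huv : u ∈ ({v}ᶜ : Set V) := by
      simp only [Set.mem_compl_iff, Set.mem_singleton_iff]
      exact hu.ne'
    obtain ⟨i₀, hi₀, hw₀⟩ := h1 ⟨u, huv⟩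
    have hne : ∀ i, (w i : V) ≠ v := fun i h => (w i).2 (Set.mem_singleton_iff.2 h)
    have hw0' : (w i₀ : V) = u := by rw [hw₀]
    set w' : ℕ → V := fun i => if i ≤ i₀ then (w i : V) else if i = i₀ + 1 then v else (w (i - 2) : V)
      with hw'
    have e1 : ∀ i, i ≤ i₀ → w' i = (w i : V) := fun i hi => by simp only [hw', if_pos hi]
    have e2 : w' (i₀ + 1) = v := by
      simp only [hw']
      rw [if_neg (by omega), if_pos trivial]
    have e3 : ∀ i, i₀ + 2 ≤ i → w' i = (w (i - 2) : V) := fun i hi => by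
      simp only [hw']
      rw [if_neg (by omega), if_neg (by omega)]
    have hw2 : w' (i₀ + 2) = u := by rw [e3 _ le_rfl]; exact hw0'
    refine ⟨w', ?_, ?_, ?_⟩
    · intro x
      by_cases hx : x = v
      · exact ⟨i₀ + 1, by omega, by rw [hx]; exact e2⟩
      · obtain ⟨i, hi, hwi⟩ := h1 ⟨x, by simpa using hx⟩
        by_cases hii : i ≤ i₀
        · refine ⟨i, by omega, ?_⟩
          rw [e1 i hii, hwi]
        · refine ⟨i + 2, by omega, ?_⟩
          rw [e3 (i + 2) (by omega)]
          show (w i : V) = x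
          rw [hwi]
    · intro i hi
      rcases lt_trichotomy i i₀ with h | h | h
      · rw [e1 i (by omega), e1 (i + 1) (by omega)]
        exact h2 i (by omega)
      · rw [h, e1 i₀ le_rfl, e2, hw0']
        exact hu.symm
      · by_cases h' : i = i₀ + 1
        · rw [h', e2, hw2]
          exact hu
        · rw [e3 i (by omega), e3 (i + 1) (by omega)]
          have h4 := h2 (i - 2) (by omega)
          have h5 : i - 2 + 1 = i + 1 - 2 := by omega
          rw [h5] at h4
          exact h4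
    · -- only the steps `i₀` and `i₀ + 1` involve `v`
      have hv1 : ∀ i, i ≠ i₀ + 1 → w' i ≠ v := by
        intro i hi
        by_cases h : i ≤ i₀
        · rw [e1 i h]; exact hne i
        · rw [e3 i (by omega)]; exact hne _
      have hval : ∀ i j, (w i : V) = (w j : V) → w i = w j := fun i j h => Subtype.ext h
      intro i hi j hj hij hij'
      by_cases hi1 : i = i₀ + 1
      · by_contra hne'
        apply hv1 j (fun h => hne' (hi1.trans h.symm))
        rw [← hij, hi1, e2]
      by_cases hj1 : j = i₀ + 1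
      · exact absurd (by rw [hij, hj1, e2]) (hv1 i hi1)
      by_cases hi0 : i = i₀
      · by_contra hne'
        apply hv1 (j + 1) (fun h => hne' (by omega))
        rw [← hij', hi0, e2]
      by_cases hj0 : j = i₀
      · exact absurd (by rw [hij', hj0, e2]) (hv1 (i + 1) (by omega))
      by_cases hil : i < i₀
      · by_cases hjl : j < i₀
        · rw [e1 i hil.le, e1 j hjl.le] at hij
          rw [e1 (i + 1) hil, e1 (j + 1) hjl] at hij'
          exact h3 i (by omega) j (by omega) (hval _ _ hij) (hval _ _ hij')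
        · rw [e1 i hil.le, e3 j (by omega)] at hij
          rw [e1 (i + 1) hil, e3 (j + 1) (by omega)] at hij'
          have h5 : j + 1 - 2 = j - 2 + 1 := by omega
          rw [h5] at hij'
          have := h3 i (by omega) (j - 2) (by omega) (hval _ _ hij) (hval _ _ hij')
          omega
      · by_cases hjl : j < i₀
        · rw [e3 i (by omega), e1 j hjl.le] at hij
          rw [e3 (i + 1) (by omega), e1 (j + 1) hjl] at hij'
          have h5 : i + 1 - 2 = i - 2 + 1 := by omega
          rw [h5] at hij'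
          have := h3 (i - 2) (by omega) j (by omega) (hval _ _ hij) (hval _ _ hij')
          omega
        · rw [e3 i (by omega), e3 j (by omega)] at hij
          rw [e3 (i + 1) (by omega), e3 (j + 1) (by omega)] at hij'
          have h5 : i + 1 - 2 = i - 2 + 1 := by omega
          have h6 : j + 1 - 2 = j - 2 + 1 := by omega
          rw [h5, h6] at hij'
          have := h3 (i - 2) (by omega) (j - 2) (by omega) (hval _ _ hij) (hval _ _ hij')
          omega

/-- the interval inequality -/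
lemma interval (g : ℕ → ℝ) (a b s : ℕ) (hs : b ≤ a + s) (c : ℝ)
    (hc : ∑ i ∈ Ico a b, (g i - c) = 0) :
    ∑ i ∈ Ico a b, (g i - c) ^ 2 ≤ (s : ℝ) ^ 2 * ∑ i ∈ Ico a (b - 1), (g (i + 1) - g i) ^ 2 := by
  rcases Nat.lt_or_ge a b with hab | hab
  swap
  · rw [Finset.Ico_eq_empty (by omega), Finset.sum_empty]
    positivity
  set D : ℝ := ∑ i ∈ Ico a (b - 1), |g (i + 1) - g i| with hD
  have hD0 : 0 ≤ D := Finset.sum_nonneg fun _ _ => abs_nonneg _
  have h0 : ∀ i j, a ≤ i → i ≤ j → j < b → |g i - g j| ≤ D := by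
    intro i j hai hij hjb
    rw [abs_sub_comm, ← Finset.sum_Ico_sub g hij]
    refine (Finset.abs_sum_le_sum_abs _ _).trans ?_
    apply Finset.sum_le_sum_of_subset_of_nonneg
    · intro l hl
      rw [Finset.mem_Ico] at hl ⊢
      omega
    · intro _ _ _; exact abs_nonneg _
  have h1 : ∀ i ∈ Ico a b, ∀ j ∈ Ico a b, |g i - g j| ≤ D := by
    intro i hi j hj
    rw [Finset.mem_Ico] at hi hj
    rcases le_total i j with h | h
    · exact h0 i j hi.1 h hj.2
    · rw [abs_sub_comm]; exact h0 j i hj.1 h hi.2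
  have hcard : (Ico a b).card = b - a := Nat.card_Ico a b
  have hba : (0 : ℝ) < ((b - a : ℕ) : ℝ) := by exact_mod_cast (by omega : 0 < b - a)
  have h2 : ∀ i ∈ Ico a b, (g i - c) ^ 2 ≤ D ^ 2 := by
    intro i hi
    have h3 : ((b - a : ℕ) : ℝ) * (g i - c) = ∑ j ∈ Ico a b, (g i - g j) := by
      have h4 : ∑ j ∈ Ico a b, (g i - g j) = ∑ j ∈ Ico a b, ((g i - c) - (g j - c)) :=
        Finset.sum_congr rfl fun j _ => by ring
      rw [h4, Finset.sum_sub_distrib, hc, sub_zero, Finset.sum_const, hcard, nsmul_eq_mul]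
    have h4 : |((b - a : ℕ) : ℝ) * (g i - c)| ≤ ((b - a : ℕ) : ℝ) * D := by
      rw [h3]
      refine (Finset.abs_sum_le_sum_abs _ _).trans ?_
      calc ∑ j ∈ Ico a b, |g i - g j| ≤ ∑ j ∈ Ico a b, D := Finset.sum_le_sum (h1 i hi)
        _ = ((b - a : ℕ) : ℝ) * D := by rw [Finset.sum_const, hcard, nsmul_eq_mul]
    rw [abs_mul, abs_of_pos hba] at h4
    have h5 : |g i - c| ≤ D := le_of_mul_le_mul_left h4 hba
    rw [← sq_abs (g i - c)]
    exact pow_le_pow_left₀ (abs_nonneg _) h5 2
  have h3 : D ^ 2 ≤ ((b - 1 - a : ℕ) : ℝ) * ∑ i ∈ Ico a (b - 1), (g (i + 1) - g i) ^ 2 := by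
    have := sq_sum_le_card_mul_sum_sq (s := Ico a (b - 1)) (f := fun i => |g (i + 1) - g i|)
    rw [Nat.card_Ico] at this
    simpa only [sq_abs] using this
  set Q : ℝ := ∑ i ∈ Ico a (b - 1), (g (i + 1) - g i) ^ 2 with hQ
  have hQ0 : 0 ≤ Q := Finset.sum_nonneg fun _ _ => sq_nonneg _
  have hs1 : ((b - a : ℕ) : ℝ) ≤ s := by exact_mod_cast (by omega : b - a ≤ s)
  have hs2 : ((b - 1 - a : ℕ) : ℝ) ≤ s := by exact_mod_cast (by omega : b - 1 - a ≤ s)
  calc ∑ i ∈ Ico a b, (g i - c) ^ 2 ≤ ∑ i ∈ Ico a b, D ^ 2 := Finset.sum_le_sum h2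
    _ = ((b - a : ℕ) : ℝ) * D ^ 2 := by rw [Finset.sum_const, hcard, nsmul_eq_mul]
    _ ≤ s * (s * Q) := by
        have : D ^ 2 ≤ s * Q := h3.trans (mul_le_mul_of_nonneg_right hs2 hQ0)
        exact mul_le_mul hs1 this (sq_nonneg _) (by positivity)
    _ = (s : ℝ) ^ 2 * Q := by ring

/-- sums over the vertices and over the walk -/
lemma sum_le_walk {V : Type} [Fintype V] (m : ℕ) (w : ℕ → V) (hw : ∀ v, ∃ i ≤ m, w i = v)
    (F : V → ℝ) (hF : ∀ x, 0 ≤ F x) : ∑ x, F x ≤ ∑ i ∈ range (m + 1), F (w i) := by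
  classical
  choose i hi hwi using hw
  have hinj : Function.Injective i := fun x y h => by rw [← hwi x, ← hwi y, h]
  calc ∑ x, F x = ∑ x, F (w (i x)) := Finset.sum_congr rfl fun x _ => by rw [hwi x]
    _ = ∑ j ∈ univ.image i, F (w j) := by
        rw [Finset.sum_image (fun x _ y _ h => hinj h)]
    _ ≤ ∑ j ∈ range (m + 1), F (w j) := by
        apply Finset.sum_le_sum_of_subset_of_nonneg
        · intro j hj
          obtain ⟨x, -, rfl⟩ := Finset.mem_image.1 hj
          rw [Finset.mem_range]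
          have := hi x
          omega
        · intro _ _ _; exact hF _

open Classical in
/-- the walk uses distinct directed edges -/
lemma walk_le_edges {V : Type} [Fintype V] (Γ : SimpleGraph V) (m : ℕ) (w : ℕ → V)
    (h2 : ∀ i < m, Γ.Adj (w i) (w (i + 1)))
    (h3 : ∀ i < m, ∀ j < m, w i = w j → w (i + 1) = w (j + 1) → i = j) (f : V → ℝ) :
    ∑ i ∈ range m, (f (w (i + 1)) - f (w i)) ^ 2 ≤
      ∑ x, ∑ y, if Γ.Adj x y then (f x - f y) ^ 2 else 0 := by
  rw [← Fintype.sum_prod_type' (f := fun x y => if Γ.Adj x y then (f x - f y) ^ 2 else 0)]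
  have h4 : ∑ i ∈ range m, (f (w (i + 1)) - f (w i)) ^ 2 =
      ∑ p ∈ (range m).image (fun i => (w i, w (i + 1))),
        (if Γ.Adj p.1 p.2 then (f p.1 - f p.2) ^ 2 else 0) := by
    rw [Finset.sum_image]
    · refine Finset.sum_congr rfl fun i hi => ?_
      rw [if_pos (h2 i (Finset.mem_range.1 hi))]
      ring
    · intro i hi j hj hij
      rw [Finset.mem_coe, Finset.mem_range] at hi hj
      exact h3 i hi j hj (congrArg Prod.fst hij) (congrArg Prod.snd hij)
  rw [h4]
  apply Finset.sum_le_sum_of_subset_of_nonneg (Finset.subset_univ _)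
  intro p _ _
  split_ifs
  · positivity
  · exact le_rfl

open Classical in
theorem orb_aux (V : Type) [Fintype V] (Γ : SimpleGraph V)
    (ht : ∃ (m : ℕ) (w : ℕ → V), m + 2 = 2 * Fintype.card V ∧ (∀ v, ∃ i ≤ m, w i = v) ∧
      (∀ i < m, Γ.Adj (w i) (w (i + 1))) ∧
      (∀ i < m, ∀ j < m, w i = w j → w (i + 1) = w (j + 1) → i = j)) (L : ℕ) (hL : 1 ≤ L) :
    ∃ (k : ℕ) (φ : Fin k → ((V → ℝ) →ₗ[ℝ] ℝ)), k * L ≤ 3 * Fintype.card V ∧
      ∀ f : V → ℝ, ∑ x, f x = 0 → (∀ j, φ j f = 0) →
        ∑ x, f x ^ 2 ≤ 4 * (L : ℝ) ^ 2 * ∑ x, ∑ y, if Γ.Adj x y then (f x - f y) ^ 2 else 0 := by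
  obtain ⟨m, w, hm, h1, h2, h3⟩ := ht
  have hE0 : ∀ f : V → ℝ, 0 ≤ ∑ x, ∑ y, if Γ.Adj x y then (f x - f y) ^ 2 else 0 := by
    intro f
    refine Finset.sum_nonneg fun x _ => Finset.sum_nonneg fun y _ => ?_
    split_ifs
    · positivity
    · exact le_rfl
  rcases Nat.lt_or_ge (Fintype.card V) L with hlt | hge
  · refine ⟨0, fun j => j.elim0, by omega, fun f hf _ => ?_⟩
    set c : ℝ := (∑ i ∈ range (m + 1), f (w i)) / (m + 1) with hc
    have hc' : ∑ i ∈ Ico 0 (m + 1), (f (w i) - c) = 0 := by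
      rw [← Finset.range_eq_Ico, Finset.sum_sub_distrib, Finset.sum_const, Finset.card_range,
        nsmul_eq_mul, hc]
      push_cast
      rw [mul_div_cancel₀ _ (by positivity : ((m : ℝ) + 1) ≠ 0), sub_self]
    have h4 := interval (fun i => f (w i)) 0 (m + 1) (2 * L) (by omega) c hc'
    rw [Nat.add_sub_cancel, ← Finset.range_eq_Ico, ← Finset.range_eq_Ico] at h4
    have h5 : ∑ x, f x ^ 2 ≤ ∑ x, (f x - c) ^ 2 := by
      have : ∑ x, (f x - c) ^ 2 = ∑ x, f x ^ 2 - 2 * c * ∑ x, f x + ∑ _x : V, c ^ 2 := by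
        rw [Finset.mul_sum, ← Finset.sum_sub_distrib, ← Finset.sum_add_distrib]
        exact Finset.sum_congr rfl fun x _ => by ring
      rw [this, hf]
      have : (0 : ℝ) ≤ ∑ _x : V, c ^ 2 := Finset.sum_nonneg fun _ _ => sq_nonneg _
      linarith
    have h6 := sum_le_walk m w h1 (fun x => (f x - c) ^ 2) (fun x => sq_nonneg _)
    have h7 := walk_le_edges Γ m w h2 h3 f
    calc ∑ x, f x ^ 2 ≤ ((2 * L : ℕ) : ℝ) ^ 2 *
          ∑ i ∈ range m, (f (w (i + 1)) - f (w i)) ^ 2 := h5.trans (h6.trans h4)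
      _ = 4 * (L : ℝ) ^ 2 * ∑ i ∈ range m, (f (w (i + 1)) - f (w i)) ^ 2 := by
          push_cast; ring
      _ ≤ _ := mul_le_mul_of_nonneg_left h7 (by positivity)
  · set φ : Fin (m / L + 1) → ((V → ℝ) →ₗ[ℝ] ℝ) := fun j =>
      ∑ i ∈ (range (m + 1)).filter (fun i => i / L = (j : ℕ)), LinearMap.proj (w i) with hφ
    refine ⟨m / L + 1, φ, ?_, fun f _ hj => ?_⟩
    · have := Nat.div_mul_le_self m L
      calc (m / L + 1) * L = m / L * L + L := by ring
        _ ≤ m + L := by omega
        _ ≤ 3 * Fintype.card V := by omega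
    · have hj' : ∀ j < m / L + 1, ∑ i ∈ (range (m + 1)).filter (fun i => i / L = j), f (w i) = 0 := by
        intro j hjl
        have := hj ⟨j, hjl⟩
        rw [hφ] at this
        simpa using this
      have hblk : ∀ j, (range (m + 1)).filter (fun i => i / L = j) =
          Ico (j * L) (min ((j + 1) * L) (m + 1)) := by
        intro j
        ext i
        rw [Finset.mem_filter, Finset.mem_range, Finset.mem_Ico, lt_min_iff,
          Nat.div_eq_iff (by omega)]
        constructor
        · rintro ⟨h4, h5, h6⟩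
          have : (j + 1) * L = j * L + L := by ring
          omega
        · rintro ⟨h4, h5, h6⟩
          have : (j + 1) * L = j * L + L := by ring
          omega
      have h4 : ∑ i ∈ range (m + 1), f (w i) ^ 2 ≤ (L : ℝ) ^ 2 *
          ∑ i ∈ range m, (f (w (i + 1)) - f (w i)) ^ 2 := by
        rw [← Finset.sum_fiberwise_of_maps_to (s := range (m + 1)) (t := range (m / L + 1))
          (g := fun i => i / L) (fun i hi => by
            rw [Finset.mem_range] at hi ⊢
            have := Nat.div_le_div_right (c := L) (show i ≤ m by omega)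
            omega),
          ← Finset.sum_fiberwise_of_maps_to (s := range m) (t := range (m / L + 1))
          (g := fun i => i / L) (fun i hi => by
            rw [Finset.mem_range] at hi ⊢
            have := Nat.div_le_div_right (c := L) (show i ≤ m by omega)
            omega), Finset.mul_sum]
        refine Finset.sum_le_sum fun j hjr => ?_
        rw [Finset.mem_range] at hjr
        have h5 := hj' j hjr
        rw [hblk j] at h5 ⊢
        have h6 := interval (fun i => f (w i)) (j * L) (min ((j + 1) * L) (m + 1)) L (by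
          have : (j + 1) * L = j * L + L := by ring
          omega) 0 (by simpa using h5)
        simp only [sub_zero] at h6
        refine h6.trans (mul_le_mul_of_nonneg_left ?_ (by positivity))
        apply Finset.sum_le_sum_of_subset_of_nonneg
        · intro i hi
          rw [Finset.mem_Ico] at hi
          rw [Finset.mem_filter, Finset.mem_range, Nat.div_eq_iff (by omega)]
          have : (j + 1) * L = j * L + L := by ring
          omega
        · intro _ _ _; positivity
      have h6 := sum_le_walk m w h1 (fun x => f x ^ 2) (fun x => sq_nonneg _)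
      have h7 := walk_le_edges Γ m w h2 h3 f
      calc ∑ x, f x ^ 2 ≤ (L : ℝ) ^ 2 *
            ∑ i ∈ range m, (f (w (i + 1)) - f (w i)) ^ 2 := h6.trans h4
        _ ≤ (L : ℝ) ^ 2 * ∑ x, ∑ y, (if Γ.Adj x y then (f x - f y) ^ 2 else 0) :=
            mul_le_mul_of_nonneg_left h7 (by positivity)
        _ ≤ _ := by
            have h8 := hE0 f
            have h9 : (0 : ℝ) ≤ (L : ℝ) ^ 2 := by positivity
            nlinarith [mul_nonneg h9 h8]

end Pool.Agent.D0H70.AC
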