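import Pool.Agent.D0H83.AC.Stm
import Pool.Agent.D0H70.AC.TourAux

/-! Project AC, modules TOUR and ORB. -/

set_option autoImplicit false

namespace Pool.Agent.D0H70.AC

open Pool.Agent.D0H83.AC

theorem t_tour : S_tour := by
  intro V _ Γ hΓ
  classical
  have hne : Nonempty V := hΓ.nonempty
  have hc : 1 ≤ Fintype.card V := Fintype.card_pos
  obtain ⟨w, h1, h2, h3⟩ := tour_aux (Fintype.card V - 1) V Γ hΓ (by omega)
  exact ⟨2 * (Fintype.card V - 1), w, by omega, h1, h2, h3⟩

theorem t_orb : S_tour → S_orb := fun ht V _ Γ hΓ L hL => orb_aux V Γ (ht V Γ hΓ) L hL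

theorem orb : S_orb := t_orb t_tour

end Pool.Agent.D0H70.AC
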